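import Pool.Agent.Helper26.Er.Defs

/-!
# Functions with the mean value property are smooth (package E2a, MP_6b977f_mp)
-/

set_option autoImplicit false
open MeasureTheory Filter Topology ProbabilityTheory
open scoped ContDiff ENNReal InnerProductSpace Convolution

namespace Pool.Agent.Helper63.Er

open Pool.Agent.N661.BR (J0)
open Pool.Agent.Helper37.BC
open Pool.Agent.Helper26.Ip

noncomputable section

/-- the smooth weight -/
def psi (y : ℂ) : ℝ := Real.smoothTransition (1 - ‖y‖ ^ 2)

theorem psi_smooth : ContDiff ℝ ∞ psi :=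
  Real.smoothTransition.contDiff.comp (contDiff_const.sub (contDiff_norm_sq ℝ))

theorem psi_zero {y : ℂ} (h : 1 ≤ ‖y‖) : psi y = 0 := by
  unfold psi
  exact Real.smoothTransition.zero_of_nonpos (by nlinarith)

theorem psi_neg (y : ℂ) : psi (-y) = psi y := by
  unfold psi; rw [norm_neg]

theorem psi_supp : HasCompactSupport psi := by
  refine HasCompactSupport.intro (isCompact_closedBall (0:ℂ) 1) fun y hy => psi_zero ?_
  rw [mem_closedBall_zero_iff, not_le] at hy
  exact hy.le

/-- the constant -/
def kap2 : ℝ := ∫ r in (0:ℝ)..1,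
  (2 * Real.pi) * (r * Real.smoothTransition (1 - r ^ 2) * J0 r)

theorem kap2_pos : 0 < kap2 := by
  unfold kap2
  refine intervalIntegral.intervalIntegral_pos_of_pos_on ?_ ?_ one_pos
  · have h1 : Continuous fun r : ℝ => Real.smoothTransition (1 - r ^ 2) :=
      Real.smoothTransition.continuous.comp (by fun_prop)
    exact (continuous_const.mul ((continuous_id.mul h1).mul J0_cont)).intervalIntegrable _ _
  · intro r hr
    have h1 := J0_pos hr.1.le hr.2.le
    have h2 : 0 < Real.smoothTransition (1 - r ^ 2) :=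
      Real.smoothTransition.pos_of_pos (by nlinarith [hr.1, hr.2])
    have h3 := hr.1
    have h4 := Real.pi_pos
    positivity

theorem psi_rep {u : ℂ → ℝ} (hu : Continuous u) (hm : MeanValue u) (z : ℂ) :
    ∫ y, psi y * u (z + y) = kap2 * u z := by
  have hc : Continuous fun y : ℂ => psi y * u (z + y) := by
    have := psi_smooth.continuous
    fun_prop
  have h2 : ∀ y : ℂ, psi y * u (z + y) =
      (Metric.ball (0:ℂ) 1).indicator (fun y => psi y * u (z + y)) y := by
    intro y
    by_cases hy : y ∈ Metric.ball (0:ℂ) 1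
    · rw [Set.indicator_of_mem hy]
    · rw [Set.indicator_of_notMem hy]
      rw [mem_ball_zero_iff, not_lt] at hy
      rw [psi_zero hy, zero_mul]
  rw [integral_congr_ae (Eventually.of_forall h2), integral_indicator Metric.isOpen_ball.measurableSet, polar hc zero_le_one]
  unfold kap2
  rw [← intervalIntegral.integral_mul_const]
  refine intervalIntegral.integral_congr fun r hr => ?_
  rw [Set.uIcc_of_le zero_le_one] at hr
  have hn : ∀ θ : ℝ, psi ((r:ℂ) * ee θ) = Real.smoothTransition (1 - r ^ 2) := fun θ => by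
    unfold psi
    rw [norm_mul, ee_norm, mul_one, Complex.norm_real, Real.norm_eq_abs, sq_abs]
  show r * ∫ θ in (0:ℝ)..(2 * Real.pi), psi ((r:ℂ) * ee θ) * u (z + r * ee θ) = _
  simp_rw [hn]
  rw [intervalIntegral.integral_const_mul, hm z r hr.1]
  ring

/-- E2a -/
theorem smooth_of_mean {u : ℂ → ℝ} (hu : Continuous u) (hm : MeanValue u) : ContDiff ℝ ∞ u := by
  have h1 : ContDiff ℝ ∞ (psi ⋆[ContinuousLinearMap.mul ℝ ℝ, volume] u) :=
    HasCompactSupport.contDiff_convolution_left _ psi_supp psi_smooth hu.locallyIntegrable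
  have h2 : ∀ z, (psi ⋆[ContinuousLinearMap.mul ℝ ℝ, volume] u) z = kap2 * u z := by
    intro z
    rw [← psi_rep hu hm z]
    show ∫ t, (ContinuousLinearMap.mul ℝ ℝ) (psi t) (u (z - t)) = _
    simp only [ContinuousLinearMap.mul_apply']
    rw [← integral_neg_eq_self (fun y => psi y * u (z + y))]
    simp only [psi_neg, ← sub_eq_add_neg]
  have h3 : u = fun z => kap2⁻¹ * (psi ⋆[ContinuousLinearMap.mul ℝ ℝ, volume] u) z := by
    funext z
    rw [h2 z, inv_mul_cancel_left₀ kap2_pos.ne']
  rw [h3]
  exact contDiff_const.mul h1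

end

end Pool.Agent.Helper63.Er
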